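import Pool.Agent.H47.RU.Targets
import Pool.Agent.H28.PZ.FI

/-! # FJ: few common zeros, with the sine weight -/

set_option autoImplicit false

open Complex MeasureTheory Set

namespace Pool.Agent.H74.RU.FJ

open Pool.Agent.H47.RU Pool.Agent.H28.MZ Pool.Agent.H28.PZ
open Pool.Agent.H23.GLH (PrimChar)

/-- the error term in (JI) is small -/
theorem err_small' (D CG CR B : ℝ) (hD : 4 ≤ D) (hCG : 0 ≤ CG) (hCR : 0 ≤ CR) (hB : 0 < B) :
    ∃ T₀ : ℝ, ∀ T a : ℝ, T₀ ≤ T → 0 ≤ a → a ≤ 1 →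
      2 * (D * Real.log T - a) * Real.sinh (Real.pi * (D * Real.log T - a) / T) *
          Real.log (T ^ CG) +
        4 * (T + 2) * T * Real.cosh (Real.pi * (D * Real.log T - a) / T) *
          (CR * (2 : ℝ) ^ (1 - 4 * Real.log T)) ≤ B * T := by
  have h1 := ev_log (16 * D ^ 2 * CG) (B / 2) (by positivity)
  have h2 := ev_log (4 * D) 1 one_pos
  have h3 := Filter.eventually_ge_atTop (max 3 (100 * CR / B))
  obtain ⟨T₀, hT₀⟩ := Filter.eventually_atTop.mp (h1.and (h2.and h3))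
  refine ⟨T₀, fun T a hT ha0 ha1 => ?_⟩
  obtain ⟨e1, e2, e3⟩ := hT₀ T hT
  have hT3 : 3 ≤ T := (le_max_left _ _).trans e3
  have hTB : 100 * CR / B ≤ T := (le_max_right _ _).trans e3
  have hT0 : 0 < T := by linarith
  have hlog1 : 1 ≤ Real.log T := by
    rw [Real.le_log_iff_exp_le hT0]
    have := Real.exp_one_lt_d9
    linarith
  have hpi := Real.pi_pos
  have hpi4 := Real.pi_le_four
  have hlog3 : Real.log T ≤ Real.log T ^ 3 := by
    nlinarith [sq_nonneg (Real.log T - 1), sq_nonneg (Real.log T)]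
  have hDl : 4 ≤ D * Real.log T := by nlinarith
  set x := Real.pi * (D * Real.log T - a) / T with hx
  have hd0 : 0 ≤ D * Real.log T - a := by linarith
  have hx0 : 0 ≤ x := by positivity
  have hx16 : x ≤ 4 * D * Real.log T / T := by
    rw [hx]
    apply div_le_div_of_nonneg_right _ hT0.le
    nlinarith
  have hx1 : x ≤ 1 := by
    refine hx16.trans ?_
    rw [div_le_one hT0]
    have : 4 * D * Real.log T ≤ 4 * D * Real.log T ^ 3 :=
      mul_le_mul_of_nonneg_left hlog3 (by linarith)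
    linarith
  have hs := sinh_le hx0 hx1
  have hs0 : 0 ≤ Real.sinh x := Real.sinh_nonneg_iff.mpr hx0
  have hc := cosh_le hx0 hx1
  have hc0 : 0 < Real.cosh x := Real.cosh_pos x
  have hlogT : Real.log (T ^ CG) = CG * Real.log T := Real.log_rpow hT0 CG
  have hrp := two_rpow_log (T := T) (by linarith)
  have hrp0 : 0 < (2 : ℝ) ^ (1 - 4 * Real.log T) := by positivity
  have hT2 : T ^ (-2 : ℝ) = 1 / T ^ 2 := by
    rw [Real.rpow_neg hT0.le]; norm_num
  rw [hT2] at hrp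
  have p1 : 2 * (D * Real.log T - a) * Real.sinh x * Real.log (T ^ CG) ≤ B / 2 * T := by
    rw [hlogT]
    calc 2 * (D * Real.log T - a) * Real.sinh x * (CG * Real.log T)
        ≤ 2 * (D * Real.log T) * (2 * (4 * D * Real.log T / T)) * (CG * Real.log T) := by
          gcongr
          · linarith
          · linarith
      _ = 16 * D ^ 2 * CG * Real.log T ^ 3 / T := by ring
      _ ≤ (B / 2 * T) / T := by gcongr
      _ ≤ B / 2 * T := by
        rw [mul_div_assoc, div_self hT0.ne']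
        nlinarith
  have p2 : 4 * (T + 2) * T * Real.cosh x * (CR * (2 : ℝ) ^ (1 - 4 * Real.log T)) ≤
      B / 2 * T := by
    calc 4 * (T + 2) * T * Real.cosh x * (CR * (2 : ℝ) ^ (1 - 4 * Real.log T))
        ≤ 4 * (T + T) * T * 2 * (CR * (2 * (1 / T ^ 2))) := by
          gcongr
          linarith
      _ = 32 * CR := by field_simp; ring
      _ ≤ B / 2 * T := by
        rw [div_le_iff₀ hB] at hTB
        nlinarith
  linarith

lemma tt_pos {ε₀ : ℝ} (h : 0 < ε₀) : 0 < tt ε₀ := by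
  unfold tt ee
  have : 0 < min (1 / 100) (ε₀ / 32) := lt_min (by norm_num) (by positivity)
  positivity

lemma tt_le (ε₀ : ℝ) : tt ε₀ ≤ 1 := by
  unfold tt ee
  have : min (1 / 100) (ε₀ / 32) ≤ 1 / 100 := min_le_left _ _
  linarith

theorem wl_im' (r : ℝ) (s : ℂ) : (wl r 0 s).im = r * s.im := by
  unfold wl
  simp

set_option maxHeartbeats 2000000 in
/-- (FJ) -/
theorem pf_FJ (hIV : T_IV) (hUH : T_UH) (hJI : T_JI) (hOR : T_OR) : T_FJ := by
  classical
  intro S A ε₀ hS hA hε₀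
  obtain ⟨R, C₁, hR, hC₁, hI⟩ := hIV S A ε₀ hS hA hε₀
  obtain ⟨C₂, T₂, hC₂, hU⟩ := hUH S A hS hA
  have hR0 : 0 < R := by linarith
  have hpi := Real.pi_pos
  have hA0 : 0 < A := by linarith
  refine ⟨(C₁ + 2) / (Real.pi ^ 2 * R), by positivity, ?_⟩
  intro n hn
  have hn0 : (0 : ℝ) < n := by exact_mod_cast hn
  obtain ⟨T₁, hI1⟩ := hI n (1 / n) hn (by positivity)
  obtain ⟨T₄, hE⟩ := err_small' (8 * A) C₂ C₂ (1 / (Real.pi * n)) (by linarith) hC₂.le hC₂.le
    (by positivity)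
  refine ⟨max (max T₁ T₂) (max T₄ (max (Real.exp (4 * R)) (8 * C₂ + 3))), ?_⟩
  intro T r ψ hT hr hsep Z m hZ
  simp only [max_le_iff] at hT
  obtain ⟨⟨hT1, hT2⟩, hT4, hT5, hT6⟩ := hT
  have hT7 : 3 ≤ T := by linarith
  have hT0 : 0 < T := by linarith
  have hlog : 4 * R ≤ Real.log T := (Real.le_log_iff_exp_le hT0).mpr hT5
  have hlog0 : 0 < Real.log T := by linarith
  obtain ⟨b, hb, hms⟩ := hI1 T r ψ hT1 hr hsep
  set η : ℝ := R / Real.log T with hη
  have hη0 : 0 < η := by rw [hη]; positivity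
  have hη1 : η ≤ 1 / 4 := by
    rw [hη, div_le_iff₀ hlog0]; linarith
  set Y : ℕ := ⌊T ^ tt ε₀⌋₊ with hY
  have hY1 : 1 ≤ Y := by
    rw [hY]
    apply Nat.le_floor
    rw [Nat.cast_one]
    exact Real.one_le_rpow (by linarith) (tt_pos hε₀).le
  have hY2 : (Y : ℝ) ≤ T := by
    refine (Nat.floor_le (by positivity)).trans ?_
    calc T ^ tt ε₀ ≤ T ^ (1 : ℝ) := Real.rpow_le_rpow_of_exponent_le (by linarith) (tt_le _)
      _ = T := Real.rpow_one T
  obtain ⟨hdiff, hgrow, hord, hright⟩ := hU T η n Y r ψ b hT2 hη0.le (by linarith) hn hY1 hY2 hr hb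
  set f : ℂ → ℂ := Uf n ψ b Y r η with hf
  have hrpos : ∀ i, 0 < r i := fun i => lt_of_lt_of_le (by positivity) (hr i).2.1
  -- right side
  have hURb : ∀ s : ℂ, 8 * A * Real.log T - 1 ≤ s.re →
      ‖f s - 1‖ ≤ C₂ * (2 : ℝ) ^ (1 - 4 * Real.log T) := by
    intro s hs
    have h4A : 4 * A ≤ s.re := by nlinarith
    refine (hright s h4A).trans ?_
    refine mul_le_mul_of_nonneg_left ?_ hC₂.le
    refine Real.rpow_le_rpow_of_exponent_le (by norm_num) ?_
    have h1 : (8 * A * Real.log T - 1) / (2 * A) ≤ s.re / (2 * A) :=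
      div_le_div_of_nonneg_right hs (by positivity)
    have h2 : (8 * A * Real.log T - 1) / (2 * A) = 4 * Real.log T - 1 / (2 * A) := by
      field_simp
      ring
    have h3 : 1 / (2 * A) ≤ 1 := by
      rw [div_le_one (by positivity)]
      linarith
    linarith
  have he4 : C₂ * (2 : ℝ) ^ (1 - 4 * Real.log T) ≤ 1 / 4 := by
    have e1 := two_rpow_log (T := T) (by linarith)
    have e2 : T ^ (-2 : ℝ) ≤ 1 / T := by
      rw [Real.rpow_neg hT0.le, one_div]
      apply inv_anti₀ hT0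
      have : T ^ (2 : ℝ) = T ^ 2 := by norm_num
      rw [this]; nlinarith
    calc C₂ * (2 : ℝ) ^ (1 - 4 * Real.log T) ≤ C₂ * (2 * (1 / T)) := by
          gcongr; linarith
      _ = 2 * C₂ / T := by ring
      _ ≤ 1 / 4 := by
        rw [div_le_iff₀ hT0]; linarith
  -- orders of `f` are finite
  have hUfin : ∀ z : ℂ, T / 2 < z.im → analyticOrderAt f z ≠ ⊤ := by
    intro z hz
    apply order_ne_top hdiff (p := (8 * A * Real.log T : ℝ) + T * I) _ _ hz
    · simp; linarith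
    · intro h0
      have h7 := hURb ((8 * A * Real.log T : ℝ) + T * I) (by simp)
      rw [h0, zero_sub, norm_neg, norm_one] at h7
      linarith
  have hlog8 : 4 * A < 8 * A * Real.log T := by nlinarith
  have hQpos : 0 < 1 + C₁ / n + 1 / n := by positivity
  have hlogQ : Real.log (1 + C₁ / n + 1 / n) ≤ (C₁ + 1) / n := by
    have := Real.log_le_sub_one_of_pos hQpos
    have e : (1 + C₁ / n + 1 / n : ℝ) - 1 = (C₁ + 1) / n := by
      field_simp
      ring
    linarith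
  have herr := hE T (1 / 2 - η) hT4 (by linarith) (by linarith)
  -- the bound for the right half
  have hhalf : ∀ (Z' : Finset ℂ) (m' : ℂ → ℕ), (∀ ρ ∈ Z', T < ρ.im ∧ ρ.im < 2 * T ∧ 1 / 2 ≤ ρ.re ∧
      ρ.re < 1 ∧ ∀ i, (m' ρ : ℕ∞) ≤ analyticOrderAt (ψ i).L (wl (r i) 0 ρ)) →
      ∑ ρ ∈ Z', (m' ρ : ℝ) * sn T ρ.im ≤
        (C₁ + 2) / (2 * Real.pi ^ 2 * R) / n * (T * Real.log T) := by
    intro Z' m' hZ'
    have hJ := hJI f (1 / 2 - η) (8 * A * Real.log T) T (T ^ C₂)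
      (C₂ * (2 : ℝ) ^ (1 - 4 * Real.log T)) (1 + C₁ / n + 1 / n) Z' m' (by nlinarith)
      (by linarith) (Real.one_le_rpow (by linarith) hC₂.le) (by positivity) he4 hQpos hdiff
      (fun s hs1 _ hs3 hs4 => hgrow s (by linarith) hs3 hs4)
      (fun s hs1 _ _ _ => hURb s hs1) hms
      (fun ρ hρ => by
        obtain ⟨g1, g2, g3, g4, g5⟩ := hZ' ρ hρ
        refine ⟨g1, g2, by linarith, ?_⟩
        have h1 := hord ρ (m' ρ) (by linarith) g5
        rw [← Nat.cast_analyticOrderNatAt (hUfin ρ (by linarith))] at h1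
        exact_mod_cast h1)
    have hlow : η * ∑ ρ ∈ Z', (m' ρ : ℝ) * sn T ρ.im ≤
        ∑ ρ ∈ Z', (m' ρ : ℝ) * ph T (max 0 (ρ.re - (1 / 2 - η))) * sn T ρ.im := by
      rw [Finset.mul_sum]
      refine Finset.sum_le_sum fun ρ hρ => ?_
      obtain ⟨g1, g2, g3, g4, g5⟩ := hZ' ρ hρ
      have hs := sn_nonneg hT0 g1.le g2.le
      have e1 := ph_ge hT0 (le_max_left 0 (ρ.re - (1 / 2 - η)))
      have e2 := le_max_right 0 (ρ.re - (1 / 2 - η))
      have e3 : η ≤ ph T (max 0 (ρ.re - (1 / 2 - η))) := by linarith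
      have hmn : (0 : ℝ) ≤ m' ρ := Nat.cast_nonneg _
      calc η * ((m' ρ : ℝ) * sn T ρ.im) = (m' ρ : ℝ) * η * sn T ρ.im := by ring
        _ ≤ _ := by gcongr
    set B := ∑ ρ ∈ Z', (m' ρ : ℝ) * sn T ρ.im with hB
    have hkey : 2 * Real.pi * (η * B) ≤ T / Real.pi * ((C₁ + 1) / n) + 1 / (Real.pi * n) * T := by
      have e1 : 2 * Real.pi * (η * B) ≤ 2 * Real.pi *
          ∑ ρ ∈ Z', (m' ρ : ℝ) * ph T (max 0 (ρ.re - (1 / 2 - η))) * sn T ρ.im :=
        mul_le_mul_of_nonneg_left hlow (by positivity)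
      have e2 : T / Real.pi * Real.log (1 + C₁ / n + 1 / n) ≤ T / Real.pi * ((C₁ + 1) / n) :=
        mul_le_mul_of_nonneg_left hlogQ (by positivity)
      linarith
    have e2 : B = (2 * Real.pi * (R / Real.log T * B)) * (Real.log T / (2 * Real.pi * R)) := by
      field_simp
    rw [e2]
    calc (2 * Real.pi * (R / Real.log T * B)) * (Real.log T / (2 * Real.pi * R))
        ≤ (T / Real.pi * ((C₁ + 1) / n) + 1 / (Real.pi * n) * T) *
            (Real.log T / (2 * Real.pi * R)) := by gcongr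
      _ = _ := by field_simp; ring
  -- both halves
  set Z₁ := Z.filter (fun ρ => 1 / 2 ≤ ρ.re) with hZ₁
  set Z₂ := (Z.filter (fun ρ => ¬ 1 / 2 ≤ ρ.re)).image (fun ρ => 1 - (starRingEnd ℂ) ρ) with hZ₂
  have h1 := hhalf Z₁ m fun ρ hρ => by
    rw [hZ₁, Finset.mem_filter] at hρ
    obtain ⟨g1, g2, g3, g4, g5⟩ := hZ ρ hρ.1
    exact ⟨g1, g2, hρ.2, g4, g5⟩
  have h2 := hhalf Z₂ (fun ρ => m (1 - (starRingEnd ℂ) ρ)) fun ρ' hρ' => by
    rw [hZ₂, Finset.mem_image] at hρ'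
    obtain ⟨ρ, hρ, rfl⟩ := hρ'
    rw [Finset.mem_filter] at hρ
    obtain ⟨g1, g2, g3, g4, g5⟩ := hZ ρ hρ.1
    have him : (1 - (starRingEnd ℂ) ρ).im = ρ.im := by simp
    have hre : (1 - (starRingEnd ℂ) ρ).re = 1 - ρ.re := by simp
    have hinv : 1 - (starRingEnd ℂ) (1 - (starRingEnd ℂ) ρ) = ρ := by simp
    refine ⟨by rw [him]; exact g1, by rw [him]; exact g2, by rw [hre]; linarith [not_le.1 hρ.2],
      by rw [hre]; linarith, fun i => ?_⟩
    rw [hinv, wl_refl, ← (hOR (ψ i) (wl (r i) 0 ρ) (by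
      rw [wl_im']
      exact mul_pos (hrpos i) (hT0.trans g1))).1]
    exact g5 i
  have h3 : ∑ ρ ∈ Z₂, ((m (1 - (starRingEnd ℂ) ρ) : ℕ) : ℝ) * sn T ρ.im =
      ∑ ρ ∈ Z.filter (fun ρ => ¬ 1 / 2 ≤ ρ.re), (m ρ : ℝ) * sn T ρ.im := by
    rw [hZ₂, Finset.sum_image]
    · refine Finset.sum_congr rfl fun ρ _ => ?_
      simp
    · intro x _ y _ hxy
      have h4 : (starRingEnd ℂ) x = (starRingEnd ℂ) y := by
        have : 1 - (starRingEnd ℂ) x = 1 - (starRingEnd ℂ) y := hxy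
        linear_combination -this
      exact (starRingEnd ℂ).injective h4
  rw [h3] at h2
  rw [← Finset.sum_filter_add_sum_filter_not Z (fun ρ => 1 / 2 ≤ ρ.re)]
  calc _ ≤ (C₁ + 2) / (2 * Real.pi ^ 2 * R) / n * (T * Real.log T) +
        (C₁ + 2) / (2 * Real.pi ^ 2 * R) / n * (T * Real.log T) := add_le_add h1 h2
    _ = _ := by
      field_simp
      ring

end Pool.Agent.H74.RU.FJ
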