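import Pool.Agent.H47.RU.Targets
import Pool.Agent.H2.PZ.CV
import Pool.Agent.H27.PZ.IU

/-! # IV: the mean square of the average -/

set_option autoImplicit false

open Complex MeasureTheory Set Filter Topology

namespace Pool.Agent.H74.RU.IV

open Pool.Agent.H47.RU Pool.Agent.H28.MZ
open Pool.Agent.H23.GLH (PrimChar)
open Pool.Agent.H2.PZ (gd gd_cont gd_tail gd_le_one Ga_eq sn_integral)
open Pool.Agent.H27.PZ (L_line_continuousOn Bf_continuous sn_continuous sn_nonneg sn_le_one aux4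
  aux5)

lemma ga_one {H D u : ℝ} (hH : 0 < H) (hD : 0 ≤ D) :
    ‖Ga H D u (fun _ => 1) - 1‖ ≤ 2 * Real.exp (-(D / H) ^ 2) := by
  have h1 : Ga H D u (fun _ => 1) = ((∫ v in (-D)..D, gd H v : ℝ) : ℂ) := by
    rw [Ga_eq]
    simp only [mul_one]
    exact intervalIntegral.integral_ofReal
  rw [h1, ← ofReal_one, ← ofReal_sub, norm_real, Real.norm_eq_abs, abs_sub_comm,
    abs_of_nonneg (by have := gd_le_one hH hD; linarith)]
  exact gd_tail hH hD

lemma ga_sub {H D u : ℝ} (hD : 0 ≤ D) {f : ℝ → ℂ}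
    (hf : ContinuousOn f (Icc (u - D) (u + D))) :
    Ga H D u (fun t => f t - 1) = Ga H D u f - Ga H D u (fun _ => 1) := by
  unfold Ga
  rw [← mul_sub, ← intervalIntegral.integral_sub]
  · congr 1
    refine intervalIntegral.integral_congr fun t _ => ?_
    ring
  · refine ContinuousOn.intervalIntegrable ?_
    rw [uIcc_of_le (by linarith)]
    exact (Continuous.continuousOn (by fun_prop)).mul hf
  · exact Continuous.intervalIntegrable (by fun_prop) _ _

/-- the integral of `sn F` when the local averages of `F` are close to one -/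
lemma cross (hCV : T_CV) {T H κ C₁ : ℝ} (hT : 1 ≤ T) (hH : 0 < H) {F : ℝ → ℂ}
    (hF : ContinuousOn F (Icc (T / 2) (3 * T)))
    (hG : ∀ u : ℝ, T ≤ u → u ≤ 2 * T → ‖Ga H (T / 4) u F - 1‖ ≤ κ)
    (hI : (∫ t in (T / 2)..(3 * T), ‖F t‖) ≤ C₁ * T) :
    ‖(∫ t in T..(2 * T), (sn T t : ℂ) * F t) - ((2 * T / Real.pi : ℝ) : ℂ)‖ ≤
      (κ + 2 * Real.exp (-(T / (4 * H)) ^ 2)) * (2 * T / Real.pi) +
        (C₁ + 5 / 2) * T * (2 * H / T + 2 * Real.exp (-(T / (4 * H)) ^ 2)) := by
  have hT0 : 0 < T := by linarith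
  have hsub : uIcc (T / 2) (3 * T) ⊆ Icc (T / 2) (3 * T) := by
    rw [uIcc_of_le (by linarith)]
  have hsub2 : uIcc T (2 * T) ⊆ Icc (T / 2) (3 * T) := by
    rw [uIcc_of_le (by linarith)]
    exact Icc_subset_Icc (by linarith) (by linarith)
  have he : T / 4 / H = T / (4 * H) := by field_simp
  have h1 := hCV T H (κ + 2 * Real.exp (-(T / (4 * H)) ^ 2)) (C₁ + 5 / 2) (fun t => F t - 1) hT hH
    (hF.sub continuousOn_const) (fun u hu => by
      rw [ga_sub (by linarith) (hF.mono (Icc_subset_Icc (by linarith [hu.1]) (by linarith [hu.2])))]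
      have h2 := hG u hu.1 hu.2
      have h3 := ga_one (H := H) (D := T / 4) (u := u) hH (by linarith)
      rw [he] at h3
      have h4 : Ga H (T / 4) u F - Ga H (T / 4) u (fun _ => 1) =
          (Ga H (T / 4) u F - 1) - (Ga H (T / 4) u (fun _ => 1) - 1) := by ring
      rw [h4]
      exact (norm_sub_le _ _).trans (add_le_add h2 h3)) (by
      have i1 : IntervalIntegrable (fun t => ‖F t‖) volume (T / 2) (3 * T) :=
        ((hF.mono hsub).norm).intervalIntegrable
      have i2 : IntervalIntegrable (fun t => ‖F t - 1‖) volume (T / 2) (3 * T) :=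
        (((hF.mono hsub).sub continuousOn_const).norm).intervalIntegrable
      have i3 : IntervalIntegrable (fun _ : ℝ => (1 : ℝ)) volume (T / 2) (3 * T) :=
        continuous_const.intervalIntegrable _ _
      calc (∫ t in (T / 2)..(3 * T), ‖F t - 1‖) ≤ ∫ t in (T / 2)..(3 * T), (‖F t‖ + 1) := by
            refine intervalIntegral.integral_mono_on (by linarith) i2 (i1.add i3) fun t _ => ?_
            refine (norm_sub_le _ _).trans ?_
            rw [norm_one]
        _ = (∫ t in (T / 2)..(3 * T), ‖F t‖) + (3 * T - T / 2) := by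
            rw [intervalIntegral.integral_add i1 i3, intervalIntegral.integral_const]
            simp
        _ ≤ (C₁ + 5 / 2) * T := by linarith)
  have h5 : (∫ t in T..(2 * T), (sn T t : ℂ) * (F t - 1)) =
      (∫ t in T..(2 * T), (sn T t : ℂ) * F t) - ((2 * T / Real.pi : ℝ) : ℂ) := by
    have e1 : (fun t : ℝ => (sn T t : ℂ) * (F t - 1)) =
        fun t : ℝ => (sn T t : ℂ) * F t - (sn T t : ℂ) := by
      funext t
      ring
    have cs : Continuous fun t : ℝ => (sn T t : ℂ) :=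
      continuous_ofReal.comp (sn_continuous T)
    have i1 : IntervalIntegrable (fun t : ℝ => (sn T t : ℂ) * F t) volume T (2 * T) :=
      (cs.continuousOn.mul (hF.mono hsub2)).intervalIntegrable
    have i2 : IntervalIntegrable (fun t : ℝ => (sn T t : ℂ)) volume T (2 * T) :=
      cs.intervalIntegrable _ _
    rw [e1, intervalIntegral.integral_sub i1 i2, intervalIntegral.integral_ofReal,
      sn_integral hT0]
  rw [← h5]
  exact h1

lemma gl_cont (ψ : PrimChar) (b : ℕ → ℝ) (Y : ℕ) {r : ℝ} (η : ℝ) (hr : 0 < r) {T : ℝ}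
    (hT : 0 < T) : ContinuousOn (gl ψ b Y r η) (Icc (T / 2) (3 * T)) := by
  unfold gl
  refine ContinuousOn.mul ?_ ?_
  · have := L_line_continuousOn ψ (1 / 2 - r * η) r 0 (S := Icc (T / 2) (3 * T))
      (fun t ht => by
        have := ht.1
        have : 0 < r * t := mul_pos hr (by linarith)
        intro h
        linarith)
    refine this.congr fun t _ => ?_
    simp only [add_zero]
  · refine ((Bf_continuous ψ b Y).comp ?_).continuousOn
    fun_prop

lemma Uf_line (n : ℕ) (ψ : Fin n → PrimChar) (b : Fin n → ℕ → ℝ) (Y : ℕ) (r : Fin n → ℝ)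
    (η t : ℝ) : Uf n ψ b Y r η ((1 / 2 - η : ℝ) + t * I) =
      (1 / (n : ℂ)) * ∑ i, gl (ψ i) (b i) Y (r i) η t := by
  unfold Uf
  congr 1
  refine Finset.sum_congr rfl fun i _ => ?_
  unfold G gl
  have e1 : wl (r i) 0 ((1 / 2 - η : ℝ) + t * I) = (1 / 2 - r i * η : ℝ) + (r i * t : ℝ) * I := by
    unfold wl
    push_cast
    ring
  have e2 : wl (r i) 0 ((1 / 2 - η : ℝ) + t * I) + 2 * (r i : ℂ) * η =
      (1 / 2 + r i * η : ℝ) + (r i * t : ℝ) * I := by
    rw [e1]
    push_cast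
    ring
  rw [e2, e1]

/-- the expansion of the mean square -/
lemma expand {n : ℕ} {T : ℝ} (hT : 0 < T) {g : Fin n → ℝ → ℂ}
    (hg : ∀ i, ContinuousOn (g i) (Icc (T / 2) (3 * T))) :
    (∫ t in T..(2 * T), sn T t * ‖(1 / (n : ℂ)) * ∑ i, g i t‖ ^ 2) =
      1 / (n : ℝ) ^ 2 * ∑ i, ∑ j,
        (∫ t in T..(2 * T), (sn T t : ℂ) * (g i t * (starRingEnd ℂ) (g j t))).re := by
  have hsub : uIcc T (2 * T) ⊆ Icc (T / 2) (3 * T) := by
    rw [uIcc_of_le (by linarith)]
    exact Icc_subset_Icc (by linarith) (by linarith)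
  have cs : Continuous fun t : ℝ => (sn T t : ℂ) := continuous_ofReal.comp (sn_continuous T)
  have cF : ∀ i j, ContinuousOn (fun t => (sn T t : ℂ) * (g i t * (starRingEnd ℂ) (g j t)))
      (uIcc T (2 * T)) := fun i j =>
    cs.continuousOn.mul (((hg i).mono hsub).mul
      (continuous_conj.comp_continuousOn ((hg j).mono hsub)))
  have hre : ∀ i j, (∫ t in T..(2 * T), (sn T t : ℂ) * (g i t * (starRingEnd ℂ) (g j t))).re =
      ∫ t in T..(2 * T), ((sn T t : ℂ) * (g i t * (starRingEnd ℂ) (g j t))).re := fun i j =>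
    (Complex.reCLM.intervalIntegral_comp_comm (cF i j).intervalIntegrable).symm
  have hii : ∀ i j, IntervalIntegrable (fun t => ((sn T t : ℂ) * (g i t * (starRingEnd ℂ) (g j t))).re)
      volume T (2 * T) := fun i j =>
    (continuous_re.comp_continuousOn (cF i j)).intervalIntegrable
  simp only [hre]
  have e1 : ∀ i, ∑ j, ∫ t in T..(2 * T), ((sn T t : ℂ) * (g i t * (starRingEnd ℂ) (g j t))).re =
      ∫ t in T..(2 * T), ∑ j, ((sn T t : ℂ) * (g i t * (starRingEnd ℂ) (g j t))).re := fun i =>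
    (intervalIntegral.integral_finsetSum fun j _ => hii i j).symm
  simp only [e1]
  have his : ∀ i, IntervalIntegrable (fun t => ∑ j,
      ((sn T t : ℂ) * (g i t * (starRingEnd ℂ) (g j t))).re) volume T (2 * T) := fun i =>
    (continuousOn_finsetSum _ fun j _ =>
      continuous_re.comp_continuousOn (cF i j)).intervalIntegrable
  rw [← intervalIntegral.integral_finsetSum (fun i _ => his i),
    ← intervalIntegral.integral_const_mul]
  refine intervalIntegral.integral_congr fun t _ => ?_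
  have h1 : ‖(1 / (n : ℂ)) * ∑ i, g i t‖ ^ 2 = 1 / (n : ℝ) ^ 2 * ‖∑ i, g i t‖ ^ 2 := by
    rw [norm_mul, mul_pow, norm_div, norm_one, Complex.norm_natCast, div_pow, one_pow]
  have h2 : ((‖∑ i, g i t‖ ^ 2 : ℝ) : ℂ) = ∑ i, ∑ j, g i t * (starRingEnd ℂ) (g j t) := by
    rw [← Complex.normSq_eq_norm_sq, Complex.normSq_eq_conj_mul_self, map_sum, mul_comm,
      Finset.sum_mul_sum]
  have h3 : ∑ i, ∑ j, ((sn T t : ℂ) * (g i t * (starRingEnd ℂ) (g j t))).re =
      sn T t * ‖∑ i, g i t‖ ^ 2 := by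
    have h4 : (((sn T t * ‖∑ i, g i t‖ ^ 2 : ℝ) : ℂ)).re =
        (∑ i, ∑ j, ((sn T t : ℂ) * (g i t * (starRingEnd ℂ) (g j t)))).re := by
      rw [ofReal_mul, h2, Finset.mul_sum]
      simp only [Finset.mul_sum]
    rw [ofReal_re] at h4
    rw [h4, re_sum]
    refine Finset.sum_congr rfl fun i _ => ?_
    rw [re_sum]
  rw [h1, h3]
  ring

lemma tt_pos {ε₀ : ℝ} (h : 0 < ε₀) : 0 < tt ε₀ := by
  unfold tt ee
  have : 0 < min (1 / 100) (ε₀ / 32) := lt_min (by norm_num) (by positivity)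
  positivity

lemma tt_le (ε₀ : ℝ) : tt ε₀ ≤ 1 / 4 := by
  unfold tt ee
  have : min (1 / 100) (ε₀ / 32) ≤ 1 / 100 := min_le_left _ _
  linarith

lemma bdd {S : Set PrimChar} (hS : S.Finite) (f : PrimChar → ℝ) : ∃ M : ℝ, 1 ≤ M ∧ ∀ ψ ∈ S, f ψ ≤ M := by
  obtain ⟨M, hM⟩ := (hS.image f).bddAbove
  exact ⟨max 1 M, le_max_left _ _, fun ψ hψ =>
    (hM (mem_image_of_mem f hψ)).trans (le_max_right _ _)⟩

/-- the errors are small -/
lemma small {θ D κ : ℝ} (hθ : 0 < θ) (hD : 0 < D) (hκ : 0 < κ) : ∃ T₀ : ℝ, ∀ T H : ℝ, T₀ ≤ T →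
    1 ≤ T → 0 < H → H ≤ T ^ (1 - θ) →
      (κ / 2 + 2 * Real.exp (-(T / (4 * H)) ^ 2)) * (2 * T / Real.pi) +
        (D + 5 / 2) * T * (2 * H / T + 2 * Real.exp (-(T / (4 * H)) ^ 2)) ≤
      κ * (2 * T / Real.pi) := by
  have hpi := Real.pi_pos
  have h1 : Tendsto (fun T : ℝ => (16 / Real.pi + (D + 5 / 2) * 10) * T ^ (-θ)) atTop (𝓝 0) := by
    have := (tendsto_rpow_neg_atTop hθ).const_mul (16 / Real.pi + (D + 5 / 2) * 10)
    rwa [mul_zero] at this
  obtain ⟨T₀, hT₀⟩ := eventually_atTop.1 (h1.eventually (gt_mem_nhds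
    (show (0 : ℝ) < κ / Real.pi by positivity)))
  refine ⟨T₀, fun T H hT hT1 hH hHT => ?_⟩
  have hT0 : 0 < T := by linarith
  have h2 := (hT₀ T hT).le
  have h5 : 2 * H / T ≤ 2 * T ^ (-θ) := by
    rw [div_le_iff₀ hT0]
    have : T ^ (1 - θ) = T ^ (-θ) * T := by
      rw [Real.rpow_sub hT0, Real.rpow_one, Real.rpow_neg hT0.le]
      field_simp
    rw [this] at hHT
    linarith
  have h6 : Real.exp (-(T / (4 * H)) ^ 2) ≤ 4 * T ^ (-θ) := by
    have h7 : T ^ θ / 4 ≤ T / (4 * H) := by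
      rw [div_le_div_iff₀ (by norm_num) (by positivity)]
      have h8 : T ^ θ * T ^ (1 - θ) = T := by
        rw [← Real.rpow_add hT0]
        have : θ + (1 - θ) = 1 := by ring
        rw [this, Real.rpow_one]
      have h9 : T ^ θ * H ≤ T := by
        calc T ^ θ * H ≤ T ^ θ * T ^ (1 - θ) := mul_le_mul_of_nonneg_left hHT (by positivity)
          _ = T := h8
      nlinarith
    have h8 : 0 < T ^ θ / 4 := by positivity
    have h9 : T / (4 * H) ≤ Real.exp ((T / (4 * H)) ^ 2) := aux5 _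
    have h10 : 0 < T / (4 * H) := by positivity
    rw [show -(T / (4 * H)) ^ 2 = -((T / (4 * H)) ^ 2) from rfl, Real.exp_neg]
    calc (Real.exp ((T / (4 * H)) ^ 2))⁻¹ ≤ (T / (4 * H))⁻¹ := inv_anti₀ h10 h9
      _ ≤ (T ^ θ / 4)⁻¹ := inv_anti₀ h8 h7
      _ = 4 * T ^ (-θ) := by
        rw [Real.rpow_neg hT0.le, inv_div]
        ring
  set x := T ^ (-θ) with hx
  set e := Real.exp (-(T / (4 * H)) ^ 2) with he
  have hx0 : 0 < x := by positivity
  calc (κ / 2 + 2 * e) * (2 * T / Real.pi) + (D + 5 / 2) * T * (2 * H / T + 2 * e)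
      ≤ (κ / 2 + 2 * (4 * x)) * (2 * T / Real.pi) + (D + 5 / 2) * T * (2 * x + 2 * (4 * x)) := by
        gcongr
    _ = κ / 2 * (2 * T / Real.pi) + T * ((16 / Real.pi + (D + 5 / 2) * 10) * x) := by ring
    _ ≤ κ / 2 * (2 * T / Real.pi) + T * (κ / Real.pi) := by gcongr
    _ = κ * (2 * T / Real.pi) := by ring

lemma floor_large {θ : ℝ} (hθ : 0 < θ) (N : ℝ) : ∃ T₀ : ℝ, ∀ T : ℝ, T₀ ≤ T → 1 ≤ T →
    N ≤ (⌊T ^ θ⌋₊ : ℝ) ∧ T ^ (θ / 2) ≤ (⌊T ^ θ⌋₊ : ℝ) := by
  have h1 : Tendsto (fun T : ℝ => T ^ (θ / 2)) atTop atTop := tendsto_rpow_atTop (by positivity)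
  obtain ⟨T₀, hT₀⟩ := eventually_atTop.1 (h1.eventually (eventually_ge_atTop (max 2 (N + 1))))
  refine ⟨T₀, fun T hT hT1 => ?_⟩
  have h2 := hT₀ T hT
  have hT0 : 0 < T := by linarith
  have h3 : T ^ θ = T ^ (θ / 2) * T ^ (θ / 2) := by
    rw [← Real.rpow_add hT0]
    congr 1
    ring
  have h4 : 2 ≤ T ^ (θ / 2) := (le_max_left _ _).trans h2
  have h5 : N + 1 ≤ T ^ (θ / 2) := (le_max_right _ _).trans h2
  have h6 : T ^ θ < (⌊T ^ θ⌋₊ : ℝ) + 1 := Nat.lt_floor_add_one _
  constructor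
  · nlinarith
  · nlinarith

set_option maxHeartbeats 2000000 in
theorem pf_IV (hWT : T_WT) (hSQ : T_SQ) (hCG : T_CG) (hCV : T_CV) : T_IV := by
  classical
  intro S A ε₀ hS hA hε₀
  have hpi := Real.pi_pos
  have hA0 : 0 < A := by linarith
  have ht0 := tt_pos hε₀
  have ht4 := tt_le ε₀
  set θ := tt ε₀ with hθ
  have hx := fun ψ : PrimChar => hWT ψ.q (by
    have := ψ.q_ne
    exact Nat.one_le_iff_ne_zero.2 (NeZero.ne ψ.q))
  choose x₀ hx1 hW using hx
  obtain ⟨X, hX1, hX⟩ := bdd hS x₀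
  obtain ⟨R, hR⟩ : ∃ R : ℝ, R = X * A / θ := ⟨_, rfl⟩
  have hR1 : 1 ≤ R := by
    rw [hR, le_div_iff₀ ht0]
    nlinarith
  have hR0 : 0 < R := by linarith
  have hs := fun ψ : PrimChar => hSQ ψ A θ R hA ht0 ht4 hR1
  choose C T₀ hC hSQ' using hs
  obtain ⟨D, hD1, hD⟩ := bdd hS C
  obtain ⟨T₂, _, hT₂⟩ := bdd hS T₀
  refine ⟨R, Real.pi * D / 2, hR1, by positivity, ?_⟩
  intro n κ hn hκ
  obtain ⟨κ', T₁, H₀, hκ', hCG'⟩ := hCG S A ε₀ R (κ / 2) hS hA hε₀ hR1 (by positivity)
  have hy := fun ψ : PrimChar => hW ψ (2 * A * R) κ' H₀ hκ'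
  choose Y₀ hY₀ using hy
  obtain ⟨N, _, hN⟩ := bdd hS (fun ψ => (Y₀ ψ : ℝ))
  obtain ⟨T₃, hT₃⟩ := floor_large ht0 N
  obtain ⟨T₄, hT₄⟩ := small ht0 (by linarith : 0 < D) hκ
  refine ⟨max (max T₁ T₂) (max (max T₃ T₄) (Real.exp (2 * A * R))), ?_⟩
  intro T r ψ hT hr hsep
  simp only [max_le_iff] at hT
  obtain ⟨⟨hT1, hT2⟩, ⟨hT3, hT4⟩, hT5⟩ := hT
  have hTone : 1 ≤ T := le_trans (by
    rw [Real.one_le_exp_iff]
    positivity) hT5
  have hT0 : 0 < T := by linarith
  have hlog : 2 * A * R ≤ Real.log T := (Real.le_log_iff_exp_le hT0).mpr hT5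
  have hlog0 : 0 < Real.log T := lt_of_lt_of_le (by positivity) hlog
  obtain ⟨hNY, hYT⟩ := hT₃ T hT3 hTone
  set Y : ℕ := ⌊T ^ θ⌋₊ with hY
  have hrpos : ∀ i, 0 < r i := fun i => lt_of_lt_of_le (by positivity) (hr i).2.1
  have hYpos : (0 : ℝ) < Y := lt_of_lt_of_le (by positivity) hYT
  have hlogY1 : θ / 2 * Real.log T ≤ Real.log Y := by
    rw [← Real.log_rpow hT0]
    exact Real.log_le_log (by positivity) hYT
  have hlogY2 : Real.log Y ≤ θ * Real.log T := by
    rw [← Real.log_rpow hT0]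
    exact Real.log_le_log hYpos (Nat.floor_le (by positivity))
  -- the weights
  have hb : ∀ i, ∃ b : ℕ → ℝ, Mol (ψ i).q b ∧
      zq (ψ i).q (1 + 2 * (r i * (R / Real.log T))) *
        Qf b Y (1 + 2 * (r i * (R / Real.log T))) ≤ 2 ∧
      ∀ h : ℕ, 1 ≤ h → h ≤ H₀ → Nat.Coprime h (ψ i).q →
        |b h - (ArithmeticFunction.moebius h : ℝ)| ≤ κ' := by
    intro i
    have hi := hr i
    have hri := hrpos i
    refine hY₀ (ψ i) (1 + 2 * (r i * (R / Real.log T))) Y ?_ ?_ ?_ ?_ ?_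
    · have : 0 < 2 * (r i * (R / Real.log T)) := by positivity
      linarith
    · have h1 : 2 * (r i * (R / Real.log T)) ≤ 1 := by
        have e : 2 * (r i * (R / Real.log T)) = 2 * r i * R / Real.log T := by ring
        rw [e, div_le_one hlog0]
        have : 2 * r i * R ≤ 2 * A * R := by
          have := hi.2.2
          gcongr
        linarith
      linarith
    · have h1 : (Y₀ (ψ i) : ℝ) ≤ (Y : ℝ) := (hN _ hi.1).trans hNY
      exact_mod_cast h1
    · have h1 : x₀ (ψ i) ≤ X := hX _ hi.1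
      have h2 : (1 + 2 * (r i * (R / Real.log T)) - 1) * Real.log Y =
          2 * r i * R * (Real.log Y / Real.log T) := by
        field_simp
        ring
      rw [h2]
      have h3 : θ / 2 ≤ Real.log Y / Real.log T := by
        rw [le_div_iff₀ hlog0]
        exact hlogY1
      have h4 : X ≤ 2 * r i * R * (θ / 2) := by
        have h5 : 1 / A ≤ r i := hi.2.1
        calc X = 2 * (1 / A) * R * (θ / 2) := by
              rw [hR]
              field_simp
          _ ≤ _ := by gcongr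
      calc x₀ (ψ i) ≤ X := h1
        _ ≤ 2 * r i * R * (θ / 2) := h4
        _ ≤ _ := by gcongr
    · have h2 : (1 + 2 * (r i * (R / Real.log T)) - 1) * Real.log Y =
          2 * r i * R * (Real.log Y / Real.log T) := by
        field_simp
        ring
      rw [h2]
      have h3 : Real.log Y / Real.log T ≤ 1 := by
        rw [div_le_one hlog0]
        nlinarith
      have h4 : r i ≤ A := hi.2.2
      calc 2 * r i * R * (Real.log Y / Real.log T) ≤ 2 * A * R * 1 := by
            gcongr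
        _ = 2 * A * R := by ring
  choose b hb1 hb2 hb3 using hb
  refine ⟨b, hb1, ?_⟩
  set g : Fin n → ℝ → ℂ := fun i => gl (ψ i) (b i) Y (r i) (R / Real.log T) with hg
  have hgc : ∀ i, ContinuousOn (g i) (Icc (T / 2) (3 * T)) := fun i =>
    gl_cont (ψ i) (b i) Y (R / Real.log T) (hrpos i) hT0
  have hsub : uIcc (T / 2) (3 * T) ⊆ Icc (T / 2) (3 * T) := by
    rw [uIcc_of_le (by linarith)]
  have hgI : ∀ i, (∫ t in (T / 2)..(3 * T), ‖g i t‖ ^ 2) ≤ D * T := by
    intro i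
    refine (hSQ' (ψ i) T (r i) (b i) ((hT₂ _ (hr i).1).trans hT2) (hr i).2.1 (hr i).2.2 (hb1 i)
      (hb2 i)).trans ?_
    exact mul_le_mul_of_nonneg_right (hD _ (hr i).1) hT0.le
  have hint : (∫ t in T..(2 * T), sn T t *
      ‖Uf n ψ b Y r (R / Real.log T) ((1 / 2 - R / Real.log T : ℝ) + t * I)‖ ^ 2) =
      ∫ t in T..(2 * T), sn T t * ‖(1 / (n : ℂ)) * ∑ i, g i t‖ ^ 2 := by
    refine intervalIntegral.integral_congr fun t _ => ?_
    simp only [Uf_line, hg]
  rw [hint, expand hT0 hgc]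
  -- the diagonal
  have hdiag : ∀ i, (∫ t in T..(2 * T), (sn T t : ℂ) * (g i t * (starRingEnd ℂ) (g i t))).re ≤
      D * T := by
    intro i
    have hsub2 : uIcc T (2 * T) ⊆ uIcc (T / 2) (3 * T) := by
      rw [uIcc_of_le (by linarith), uIcc_of_le (by linarith)]
      exact Icc_subset_Icc (by linarith) (by linarith)
    have i2 : IntervalIntegrable (fun t => ‖g i t‖ ^ 2) volume (T / 2) (3 * T) :=
      (((hgc i).mono hsub).norm.pow 2).intervalIntegrable
    have i3 : IntervalIntegrable (fun t => ‖g i t‖ ^ 2) volume T (2 * T) := i2.mono_set hsub2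
    have i4 : IntervalIntegrable (fun t => sn T t * ‖g i t‖ ^ 2) volume T (2 * T) :=
      ((sn_continuous T).continuousOn.mul
        (((hgc i).mono (hsub2.trans hsub)).norm.pow 2)).intervalIntegrable
    have e1 : (∫ t in T..(2 * T), (sn T t : ℂ) * (g i t * (starRingEnd ℂ) (g i t))) =
        ((∫ t in T..(2 * T), sn T t * ‖g i t‖ ^ 2 : ℝ) : ℂ) := by
      rw [← intervalIntegral.integral_ofReal]
      refine intervalIntegral.integral_congr fun t _ => ?_
      rw [Complex.mul_conj, Complex.normSq_eq_norm_sq]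
      push_cast
      ring
    rw [e1, ofReal_re]
    calc (∫ t in T..(2 * T), sn T t * ‖g i t‖ ^ 2) ≤ ∫ t in T..(2 * T), ‖g i t‖ ^ 2 := by
          refine intervalIntegral.integral_mono_on (by linarith) i4 i3 fun t _ => ?_
          exact mul_le_of_le_one_left (sq_nonneg _) (sn_le_one T t)
      _ ≤ ∫ t in (T / 2)..(3 * T), ‖g i t‖ ^ 2 := by
          refine intervalIntegral.integral_mono_interval (by linarith) (by linarith)
            (by linarith) ?_ i2
          exact Eventually.of_forall fun t => by positivity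
      _ ≤ D * T := hgI i
  -- off the diagonal
  have hoff : ∀ i j, i ≠ j →
      (∫ t in T..(2 * T), (sn T t : ℂ) * (g i t * (starRingEnd ℂ) (g j t))).re ≤
        (1 + κ) * (2 * T / Real.pi) := by
    intro i j hij
    obtain ⟨H, hH0, hH1, hGa⟩ := hCG' T (r i) (r j) (ψ i) (ψ j) (b i) (b j) hT1 (hr i).1 (hr j).1
      (hr i).2.1 (hr i).2.2 (hr j).2.1 (hr j).2.2 (hsep i j hij) (hb1 i) (hb1 j) (hb3 i) (hb3 j)
    have hcF : ContinuousOn (fun t => g i t * (starRingEnd ℂ) (g j t)) (Icc (T / 2) (3 * T)) :=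
      (hgc i).mul (continuous_conj.comp_continuousOn (hgc j))
    have h1 := cross hCV hTone hH0 (κ := κ / 2) (C₁ := D) hcF hGa (by
      have i1 : IntervalIntegrable (fun t => ‖g i t‖ ^ 2) volume (T / 2) (3 * T) :=
        (((hgc i).mono hsub).norm.pow 2).intervalIntegrable
      have i2 : IntervalIntegrable (fun t => ‖g j t‖ ^ 2) volume (T / 2) (3 * T) :=
        (((hgc j).mono hsub).norm.pow 2).intervalIntegrable
      have i3 : IntervalIntegrable (fun t => ‖g i t * (starRingEnd ℂ) (g j t)‖) volume (T / 2)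
          (3 * T) := ((hcF.mono hsub).norm).intervalIntegrable
      have h2 : (∫ t in (T / 2)..(3 * T), ‖g i t * (starRingEnd ℂ) (g j t)‖) ≤
          ∫ t in (T / 2)..(3 * T), (1 / 2 * ‖g i t‖ ^ 2 + 1 / 2 * ‖g j t‖ ^ 2) := by
        refine intervalIntegral.integral_mono_on (by linarith) i3
          ((i1.const_mul _).add (i2.const_mul _)) fun t _ => ?_
        simp only [norm_mul, RCLike.norm_conj]
        exact aux4 _ _
      rw [intervalIntegral.integral_add (i1.const_mul _) (i2.const_mul _),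
        intervalIntegral.integral_const_mul, intervalIntegral.integral_const_mul] at h2
      have h3 := hgI i
      have h4 := hgI j
      linarith)
    have h2 := h1.trans (hT₄ T H hT4 hTone hH0 hH1)
    set J := ∫ t in T..(2 * T), (sn T t : ℂ) * (g i t * (starRingEnd ℂ) (g j t)) with hJ
    have h3 : J.re = (J - ((2 * T / Real.pi : ℝ) : ℂ)).re + 2 * T / Real.pi := by
      rw [sub_re, ofReal_re]
      ring
    rw [h3]
    have h4 := (Complex.re_le_norm (J - ((2 * T / Real.pi : ℝ) : ℂ))).trans h2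
    linarith
  have hn0 : (0 : ℝ) < n := by exact_mod_cast hn
  have hκT : 0 ≤ (1 + κ) * (2 * T / Real.pi) := by positivity
  have hsum : ∑ i, ∑ j, (∫ t in T..(2 * T), (sn T t : ℂ) * (g i t * (starRingEnd ℂ) (g j t))).re ≤
      ∑ i : Fin n, (D * T + n * ((1 + κ) * (2 * T / Real.pi))) := by
    refine Finset.sum_le_sum fun i _ => ?_
    rw [← Finset.add_sum_erase _ _ (Finset.mem_univ i)]
    refine add_le_add (hdiag i) ?_
    calc _ ≤ ∑ j ∈ Finset.univ.erase i, (1 + κ) * (2 * T / Real.pi) :=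
          Finset.sum_le_sum fun j hj => hoff i j (Finset.ne_of_mem_erase hj).symm
      _ = ((Finset.univ.erase i).card : ℝ) * ((1 + κ) * (2 * T / Real.pi)) := by
          rw [Finset.sum_const, nsmul_eq_mul]
      _ ≤ _ := by
          refine mul_le_mul_of_nonneg_right ?_ hκT
          have := Finset.card_erase_le (s := (Finset.univ : Finset (Fin n))) (a := i)
          rw [Finset.card_univ, Fintype.card_fin] at this
          exact_mod_cast this
  rw [Finset.sum_const, Finset.card_univ, Fintype.card_fin, nsmul_eq_mul] at hsum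
  calc 1 / (n : ℝ) ^ 2 * ∑ i, ∑ j,
        (∫ t in T..(2 * T), (sn T t : ℂ) * (g i t * (starRingEnd ℂ) (g j t))).re
      ≤ 1 / (n : ℝ) ^ 2 * ((n : ℝ) * (D * T + n * ((1 + κ) * (2 * T / Real.pi)))) :=
        mul_le_mul_of_nonneg_left hsum (by positivity)
    _ = 2 * T / Real.pi * (1 + Real.pi * D / 2 / n + κ) := by
        field_simp
        ring

end Pool.Agent.H74.RU.IV
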