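import Pool.Agent.H47.RU.Targets

/-! # LI: all but boundedly many rational relations -/

set_option autoImplicit false

namespace Pool.Agent.H74.RU

open Complex Pool.Agent.H47.RU Pool.Agent.H28.MZ
open Pool.Agent.H23.GLH (PrimChar)

lemma rat_sep {a b : ℚ} (h : a ≠ b) :
    1 / ((a.den : ℝ) * b.den) ≤ |(a : ℝ) - b| := by
  have ha : (0 : ℝ) < a.den := by exact_mod_cast a.den_pos
  have hb : (0 : ℝ) < b.den := by exact_mod_cast b.den_pos
  have h1 : a.num * b.den - b.num * a.den ≠ 0 := by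
    intro h2
    apply h
    rw [Rat.eq_iff_mul_eq_mul]
    linarith
  have h2 : (1 : ℝ) ≤ |((a.num * b.den - b.num * a.den : ℤ) : ℝ)| := by
    rw [← Int.cast_abs]
    exact_mod_cast Int.one_le_abs h1
  have h3 : (a : ℝ) - b = ((a.num * b.den - b.num * a.den : ℤ) : ℝ) / ((a.den : ℝ) * b.den) := by
    have ea : (a : ℝ) = a.num / a.den := by exact_mod_cast (Rat.num_div_den a).symm
    have eb : (b : ℝ) = b.num / b.den := by exact_mod_cast (Rat.num_div_den b).symm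
    rw [ea, eb]
    push_cast
    field_simp
  rw [h3, abs_div, abs_of_pos (mul_pos ha hb)]
  exact div_le_div_of_nonneg_right h2 (mul_pos ha hb).le

lemma rat_sep' {ε T : ℝ} (hT : 1 ≤ T) (hε : 0 < ε) {a b : ℚ} (h : a ≠ b)
    (ha : (a.den : ℝ) ≤ T ^ (1 / 2 - ε)) (hb : (b.den : ℝ) ≤ T ^ (1 / 2 - ε)) :
    T ^ (-1 + ε) ≤ |(a : ℝ) - b| := by
  have hT0 : 0 < T := by linarith
  have ha0 : (0 : ℝ) < a.den := by exact_mod_cast a.den_pos
  have hb0 : (0 : ℝ) < b.den := by exact_mod_cast b.den_pos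
  refine le_trans ?_ (rat_sep h)
  have h1 : (a.den : ℝ) * b.den ≤ T ^ (1 - 2 * ε) := by
    calc (a.den : ℝ) * b.den ≤ T ^ (1 / 2 - ε) * T ^ (1 / 2 - ε) :=
          mul_le_mul ha hb hb0.le (by positivity)
      _ = T ^ (1 - 2 * ε) := by
          rw [← Real.rpow_add hT0]
          congr 1
          ring
  have h2 : T ^ (-1 + ε) ≤ (T ^ (1 - 2 * ε))⁻¹ := by
    rw [← Real.rpow_neg hT0.le]
    exact Real.rpow_le_rpow_of_exponent_le hT (by linarith)
  refine h2.trans ?_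
  rw [one_div]
  exact inv_anti₀ (mul_pos ha0 hb0) h1

lemma sn_nonneg {T t : ℝ} (hT : 0 < T) (h1 : T < t) (h2 : t < 2 * T) : 0 ≤ sn T t := by
  unfold sn
  refine Real.sin_nonneg_of_nonneg_of_le_pi ?_ ?_
  · exact div_nonneg (mul_nonneg Real.pi_pos.le (by linarith)) hT.le
  · rw [div_le_iff₀ hT]
    nlinarith [Real.pi_pos]

lemma sn_le_one (T t : ℝ) : sn T t ≤ 1 := Real.sin_le_one _

lemma wl_zero (r : ℝ) (ρ : ℂ) : wl r 0 ρ = 1 / 2 + r * (ρ - 1 / 2) := by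
  unfold wl
  simp

lemma wl_im_pos {r : ℝ} {ρ : ℂ} (hr : 0 < r) (hρ : 0 < ρ.im) : 0 < (wl r 0 ρ).im := by
  rw [wl_zero]
  simp only [add_im, mul_im, ofReal_re, ofReal_im, sub_im, zero_mul, add_zero]
  norm_num
  positivity

theorem pf_LI (hFJ : T_FJ) (hNL : T_NL) (hOR : T_OR) : T_LI := by
  classical
  intro χ S A ε hS hA hε hε2
  obtain ⟨C, hC, hF⟩ := hFJ (insert χ S) A ε (hS.insert χ) hA hε
  obtain ⟨n, hn⟩ : ∃ n : ℕ, 4 * Real.pi ^ 2 * C ≤ n := exists_nat_ge _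
  obtain ⟨T₁, hF1⟩ := hF (n + 1) (by omega)
  obtain ⟨T₂, hN⟩ := hNL χ (1 / 2) (by norm_num)
  have hn1 : (0 : ℝ) < (n : ℝ) + 1 := by positivity
  have hpi : 0 < Real.pi ^ 2 := by positivity
  refine ⟨n + 1, 1 / (4 * Real.pi ^ 2 * (n + 1)), max 3 (max T₁ T₂), by positivity, ?_⟩
  intro T hT E ψ hE hJ
  have hT3 : 3 ≤ T := (le_max_left _ _).trans hT
  have hT1 : T₁ ≤ T := ((le_max_left _ _).trans (le_max_right _ _)).trans hT
  have hT2 : T₂ ≤ T := ((le_max_right _ _).trans (le_max_right _ _)).trans hT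
  have hT0 : 0 < T := by linarith
  have hlog : 0 < Real.log T := Real.log_pos (by linarith)
  obtain ⟨Z, hZ, hZN⟩ := hN T hT2
  have hcard : n ≤ (E.erase 1).card := by
    have := Finset.pred_card_le_card_erase (s := E) (a := (1 : ℚ))
    omega
  obtain ⟨E', hE', hE'c⟩ := Finset.exists_subset_card_eq hcard
  let e : Fin n ≃ E' := (Finset.equivFinOfCardEq hE'c).symm
  let q : Fin (n + 1) → ℚ := Fin.cons 1 (fun i => (e i : ℚ))
  let π : Fin (n + 1) → PrimChar := Fin.cons χ (fun i => ψ (e i : ℚ))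
  have hq0 : q 0 = 1 := rfl
  have hqs : ∀ i : Fin n, q i.succ = (e i : ℚ) := fun _ => rfl
  have hπs : ∀ i : Fin n, π i.succ = ψ (e i : ℚ) := fun _ => rfl
  have heE : ∀ i : Fin n, (e i : ℚ) ∈ E ∧ (e i : ℚ) ≠ 1 := by
    intro i
    have h1 := hE' (e i).2
    rw [Finset.mem_erase] at h1
    exact ⟨h1.2, h1.1⟩
  have hqinj : Function.Injective q := by
    intro i j hij
    induction i using Fin.cases with
    | zero =>
      induction j using Fin.cases with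
      | zero => rfl
      | succ j =>
        rw [hq0, hqs] at hij
        exact absurd hij.symm (heE j).2
    | succ i =>
      induction j using Fin.cases with
      | zero =>
        rw [hq0, hqs] at hij
        exact absurd hij (heE i).2
      | succ j =>
        rw [hqs, hqs] at hij
        rw [e.injective (Subtype.ext hij)]
  have hqd : ∀ i, ((q i).den : ℝ) ≤ T ^ (1 / 2 - ε) := by
    intro i
    induction i using Fin.cases with
    | zero =>
      rw [hq0]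
      simp only [Rat.den_one, Nat.cast_one]
      exact Real.one_le_rpow (by linarith) (by linarith)
    | succ i => exact (hE _ (heE i).1).2.2.1
  have hqA : ∀ i, π i ∈ insert χ S ∧ 1 / A ≤ ((q i : ℚ) : ℝ) ∧ ((q i : ℚ) : ℝ) ≤ A := by
    intro i
    induction i using Fin.cases with
    | zero =>
      rw [hq0]
      refine ⟨Set.mem_insert _ _, ?_, ?_⟩
      · rw [Rat.cast_one, div_le_one (by linarith)]
        exact hA
      · rw [Rat.cast_one]
        exact hA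
    | succ i =>
      have h1 := hE _ (heE i).1
      exact ⟨Set.mem_insert_of_mem _ h1.2.2.2, h1.1, h1.2.1⟩
  have hqpos : ∀ i, 0 < ((q i : ℚ) : ℝ) := fun i =>
    lt_of_lt_of_le (by positivity) (hqA i).2.1
  -- the orders
  let o : Fin (n + 1) → ℂ → ℕ := fun i ρ => analyticOrderNatAt (π i).L (wl (q i) 0 ρ)
  let m : ℂ → ℕ := fun ρ => Finset.univ.inf' Finset.univ_nonempty (fun i => o i ρ)
  have hfin : ∀ (i : Fin (n + 1)) (ρ : ℂ), 0 < ρ.im →
      ((o i ρ : ℕ) : ℕ∞) = analyticOrderAt (π i).L (wl (q i) 0 ρ) := by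
    intro i ρ hρ
    exact Nat.cast_analyticOrderNatAt (hOR (π i) _ (wl_im_pos (hqpos i) hρ)).2
  have ho0 : ∀ ρ : ℂ, o 0 ρ = analyticOrderNatAt χ.L ρ := by
    intro ρ
    change analyticOrderNatAt χ.L (wl ((q 0 : ℚ) : ℝ) 0 ρ) = _
    rw [hq0, wl_zero]
    congr 1
    push_cast
    ring
  have hZim : ∀ ρ ∈ Z, 0 < ρ.im := fun ρ hρ => hT0.trans ((hZ ρ).1 hρ).2.2.1
  have hFm := hF1 T (fun i => ((q i : ℚ) : ℝ)) π hT1 hqA
    (fun i j hij => rat_sep' (by linarith) hε (fun h => hij (hqinj h)) (hqd i) (hqd j)) Z m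
    (fun ρ hρ => by
      have h1 := (hZ ρ).1 hρ
      refine ⟨h1.2.2.1, h1.2.2.2.1, h1.1, h1.2.1, fun i => ?_⟩
      rw [← hfin i ρ (hZim ρ hρ)]
      exact_mod_cast Finset.inf'_le _ (Finset.mem_univ i))
  have hsn : ∀ ρ ∈ Z, 0 ≤ sn T ρ.im := fun ρ hρ =>
    sn_nonneg hT0 ((hZ ρ).1 hρ).2.2.1 ((hZ ρ).1 hρ).2.2.2.1
  -- the defects
  have hkey : ∀ ρ ∈ Z, (o 0 ρ : ℝ) * sn T ρ.im ≤
      (m ρ : ℝ) * sn T ρ.im + ∑ i, ((o 0 ρ - o i ρ : ℕ) : ℝ) * sn T ρ.im := by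
    intro ρ hρ
    obtain ⟨i, _, hi⟩ := Finset.exists_mem_eq_inf' (s := (Finset.univ : Finset (Fin (n + 1))))
      Finset.univ_nonempty (fun i => o i ρ)
    have h1 : (o 0 ρ : ℝ) ≤ (m ρ : ℝ) + ∑ i, ((o 0 ρ - o i ρ : ℕ) : ℝ) := by
      have h2 : ((o 0 ρ - o i ρ : ℕ) : ℝ) ≤ ∑ i, ((o 0 ρ - o i ρ : ℕ) : ℝ) :=
        Finset.single_le_sum (f := fun i => ((o 0 ρ - o i ρ : ℕ) : ℝ))
          (fun i _ => Nat.cast_nonneg _) (Finset.mem_univ i)
      have h3 : m ρ = o i ρ := hi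
      have h4 : o 0 ρ ≤ o i ρ + (o 0 ρ - o i ρ) := by omega
      have h5 : (o 0 ρ : ℝ) ≤ (o i ρ : ℝ) + ((o 0 ρ - o i ρ : ℕ) : ℝ) := by exact_mod_cast h4
      rw [h3]
      linarith
    have h6 := mul_le_mul_of_nonneg_right h1 (hsn ρ hρ)
    rw [add_mul, Finset.sum_mul] at h6
    exact h6
  have hsum : (1 / (4 * Real.pi ^ 2)) * (T * Real.log T) ≤
      ∑ i, ∑ ρ ∈ Z, ((o 0 ρ - o i ρ : ℕ) : ℝ) * sn T ρ.im := by
    rw [Finset.sum_comm]
    have h1 := Finset.sum_le_sum hkey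
    rw [Finset.sum_add_distrib] at h1
    have h2 : ∑ ρ ∈ Z, (o 0 ρ : ℝ) * sn T ρ.im =
        ∑ ρ ∈ Z, (analyticOrderNatAt χ.L ρ : ℝ) * sn T ρ.im :=
      Finset.sum_congr rfl fun ρ _ => by rw [ho0]
    rw [h2] at h1
    have h3 : C / ((n + 1 : ℕ) : ℝ) * (T * Real.log T) ≤
        (1 / (4 * Real.pi ^ 2)) * (T * Real.log T) := by
      refine mul_le_mul_of_nonneg_right ?_ (by positivity)
      rw [div_le_div_iff₀ (by positivity) (by positivity)]
      push_cast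
      nlinarith
    have h4 : (1 - 1 / 2) * (T * Real.log T / Real.pi ^ 2) =
        2 * ((1 / (4 * Real.pi ^ 2)) * (T * Real.log T)) := by
      field_simp
      norm_num
    rw [h4] at hZN
    linarith
  have hex : ∃ i ∈ (Finset.univ : Finset (Fin (n + 1))),
      1 / (4 * Real.pi ^ 2 * (n + 1)) * (T * Real.log T) ≤
        ∑ ρ ∈ Z, ((o 0 ρ - o i ρ : ℕ) : ℝ) * sn T ρ.im := by
    refine Finset.exists_le_of_sum_le Finset.univ_nonempty ?_
    rw [Finset.sum_const, Finset.card_univ, Fintype.card_fin, nsmul_eq_mul]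
    refine le_trans (le_of_eq ?_) hsum
    push_cast
    field_simp
  obtain ⟨i, _, hi⟩ := hex
  have hcpos : 0 < 1 / (4 * Real.pi ^ 2 * (n + 1)) * (T * Real.log T) := by positivity
  induction i using Fin.cases with
  | zero =>
    exfalso
    have : ∑ ρ ∈ Z, ((o 0 ρ - o 0 ρ : ℕ) : ℝ) * sn T ρ.im = 0 :=
      Finset.sum_eq_zero fun ρ _ => by simp
    linarith
  | succ j =>
    refine ⟨(e j : ℚ), (heE j).1, Z.filter (fun ρ =>
      analyticOrderAt (ψ (e j : ℚ)).L (1 / 2 + ((e j : ℚ) : ℝ) * (ρ - 1 / 2)) <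
        analyticOrderAt χ.L ρ), ?_, ?_⟩
    · intro ρ hρ
      rw [Finset.mem_filter] at hρ
      have h1 := (hZ ρ).1 hρ.1
      exact ⟨h1.2.2.1, h1.2.2.2.1, h1.1, h1.2.1, h1.2.2.2.2, hρ.2⟩
    · refine hi.trans ?_
      rw [Finset.sum_filter]
      refine Finset.sum_le_sum fun ρ hρ => ?_
      have g1 : analyticOrderAt (ψ (e j : ℚ)).L (1 / 2 + ((e j : ℚ) : ℝ) * (ρ - 1 / 2)) =
          ((o j.succ ρ : ℕ) : ℕ∞) := by
        rw [hfin j.succ ρ (hZim ρ hρ), wl_zero]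
        rfl
      have g2 : analyticOrderAt χ.L ρ = ((o 0 ρ : ℕ) : ℕ∞) := by
        rw [ho0, Nat.cast_analyticOrderNatAt (hOR χ ρ (hZim ρ hρ)).2]
      by_cases hlt : o j.succ ρ < o 0 ρ
      · rw [if_pos (by rw [g1, g2]; exact_mod_cast hlt)]
        have h1 : ((o 0 ρ - o j.succ ρ : ℕ) : ℝ) ≤ (analyticOrderNatAt χ.L ρ : ℝ) := by
          rw [← ho0]
          exact_mod_cast Nat.sub_le _ _
        calc ((o 0 ρ - o j.succ ρ : ℕ) : ℝ) * sn T ρ.im
            ≤ ((o 0 ρ - o j.succ ρ : ℕ) : ℝ) * 1 :=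
              mul_le_mul_of_nonneg_left (sn_le_one _ _) (Nat.cast_nonneg _)
          _ ≤ _ := by rw [mul_one]; exact h1
      · rw [if_neg (by rw [g1, g2]; exact_mod_cast hlt), Nat.sub_eq_zero_of_le (not_lt.1 hlt)]
        simp

end Pool.Agent.H74.RU
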